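import Pool.Agent.helper45.FG.SpecZ

/-!
# fz:RET (MP_70a088_an): if one row of the window returns at the time `t`, all deep rows are near it at the time `t`
-/

set_option autoImplicit false

open Complex Metric Set Filter Topology MeasureTheory
open EGH (Al Rh)
open FG FGE

noncomputable section

namespace FGZ

theorem RET_cont {T : ℂ → ℂ} {O : Set ℂ} (hc : ContinuousOn T O) (t : ℕ) : ContinuousOn (T^[t]) {z | ∀ j < t, T^[j] z ∈ O} := by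
  induction t with
  | zero => rw [Function.iterate_zero]; exact continuousOn_id
  | succ t ih =>
    rw [Function.iterate_succ']
    exact hc.comp (ih.mono fun z hz j hj => hz j (by omega)) fun z hz => hz t (by omega)

theorem RET_first {φ : ℝ → ℝ} {u v c : ℝ} (huv : u ≤ v) (hφ : ContinuousOn φ (Icc u v)) (h2 : c ≤ φ v) :
    ∃ w ∈ Icc u v, c ≤ φ w ∧ ∀ s ∈ Ico u w, φ s < c := by
  have hcl : IsClosed (Icc u v ∩ φ ⁻¹' Ici c) := hφ.preimage_isClosed_of_isClosed isClosed_Icc isClosed_Ici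
  have hco : IsCompact (Icc u v ∩ φ ⁻¹' Ici c) := isCompact_Icc.of_isClosed_subset hcl inter_subset_left
  obtain ⟨w, hw, hl⟩ := hco.exists_isLeast ⟨v, ⟨huv, le_rfl⟩, h2⟩
  refine ⟨w, hw.1, hw.2, fun s hs => ?_⟩
  by_contra hn
  have := hl ⟨⟨hs.1, hs.2.le.trans hw.1.2⟩, not_lt.1 hn⟩
  linarith [hs.2]

theorem RET_last {φ : ℝ → ℝ} {u v c : ℝ} (huv : u ≤ v) (hφ : ContinuousOn φ (Icc u v)) (h2 : c ≤ φ u) :
    ∃ w ∈ Icc u v, c ≤ φ w ∧ ∀ s ∈ Ioc w v, φ s < c := by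
  have hcl : IsClosed (Icc u v ∩ φ ⁻¹' Ici c) := hφ.preimage_isClosed_of_isClosed isClosed_Icc isClosed_Ici
  have hco : IsCompact (Icc u v ∩ φ ⁻¹' Ici c) := isCompact_Icc.of_isClosed_subset hcl inter_subset_left
  obtain ⟨w, hw, hl⟩ := hco.exists_isGreatest ⟨u, ⟨le_rfl, huv⟩, h2⟩
  refine ⟨w, hw.1, hw.2, fun s hs => ?_⟩
  by_contra hn
  have := hl ⟨⟨hw.1.1.trans hs.1.le, hs.2⟩, not_lt.1 hn⟩
  linarith [hs.1]

theorem RET (hBXL : FGE.BXL_stmt) (hPKT : PKT_stmt) (hNBH : NBH_stmt) (hCHN : CHN_stmt) (hVER : VER_stmt) : RET_stmt := by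
  intro T N kap A D y a h e hPD hPl he0 hhe hh al be t E hal hbe hlen hWD hAl hE s₁ hs₁ x₁ hx₁ hζ s hs x hx
  set P : ℝ → ℝ → ℂ := fun x s => T^[t] (bx T N y a ⟨x, s⟩) with hP
  set n : ℝ := ‖a‖ with hn
  have hn0 : 0 < n := norm_pos_iff.2 hPl.a0
  have he1 : e ≤ 1 / 1000 := by nlinarith
  obtain ⟨hb1, hb2⟩ := hBXL T N kap A D y a h e hPD hPl he0 he1
  set ζ : ℂ := T^[t] (bx T N y a ⟨x₁, s₁⟩) with hζd
  -- position of `ζ`
  obtain ⟨x₀, hx₀, s₀, hs₀, hζe⟩ := hζ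
  have hz0 := hb1 ⟨x₀, s₀⟩ ⟨by simp; linarith [hx₀.1], by simp; linarith [hx₀.2]⟩ hs₀
  rw [← hζe] at hz0
  have hζy : ‖ζ - y‖ ≤ (h + 2) * n := by
    have h1 : ζ - y = (ζ - (y + a * (⟨x₀, s₀⟩ : ℂ))) + a * (⟨x₀, s₀⟩ : ℂ) := by ring
    have h2 : ‖(⟨x₀, s₀⟩ : ℂ)‖ ≤ 1 + h := by
      refine (Complex.norm_le_abs_re_add_abs_im _).trans ?_
      simp only
      rw [abs_of_nonneg hx₀.1, abs_of_nonneg hs₀.1]
      linarith [hx₀.2, hs₀.2]
    rw [h1]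
    refine (norm_add_le _ _).trans ?_
    rw [norm_mul]
    have h3 := hz0.2
    nlinarith
  have hVζ : ‖Vf T N ζ‖ ≤ 2 * n := by
    have h1 := hPl.na ζ hz0.1
    have h2 : ‖Vf T N ζ‖ ≤ ‖Vf T N ζ - a‖ + ‖a‖ := by
      have := norm_add_le (Vf T N ζ - a) a
      simpa using this
    nlinarith
  have hball : ∀ w : ℂ, ‖w - ζ‖ ≤ h / 40 * n → w ∈ ball y (3 / 2 * h * ‖a‖) := by
    intro w hw
    rw [mem_ball, dist_eq_norm]
    have h1 : w - y = (w - ζ) + (ζ - y) := by ring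
    rw [h1]
    refine (norm_add_le _ _).trans_lt ?_
    have : (h + 2) * n + h / 40 * n < 3 / 2 * h * n := by nlinarith
    linarith
  -- the good height
  obtain ⟨l, σ, hl0, hl1, hl2, hl3, hσ, hσE, hσs⟩ := hPKT E al be hWD s₁ hs₁
  have hσ1 : ‖P x₁ σ - ζ‖ ≤ n := by
    obtain ⟨-, h2⟩ := hNBH T N kap A D y a h e hPD hPl he0 he1 al be t hal hbe hAl s₁ hs₁ x₁ hx₁ l hl0 hl1 hl2 hl3
    have h3 := hb2 ⟨x₁, σ⟩ ⟨x₁, s₁⟩ ⟨by simp; linarith [hx₁.1], by simp; linarith [hx₁.2]⟩ ⟨by simp; linarith [hσ.1], by simp; linarith [hσ.2]⟩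
      ⟨by simp; linarith [hx₁.1], by simp; linarith [hx₁.2]⟩ ⟨by simp; linarith [hs₁.1], by simp; linarith [hs₁.2]⟩
    have h4 : ((⟨x₁, σ⟩ : ℂ) - ⟨x₁, s₁⟩) = ((σ - s₁ : ℝ) : ℂ) * I := by
      apply Complex.ext <;> simp
    have h5 : ‖((⟨x₁, σ⟩ : ℂ) - ⟨x₁, s₁⟩)‖ = |σ - s₁| := by
      rw [h4, norm_mul, Complex.norm_I, mul_one, Complex.norm_real, Real.norm_eq_abs]
    have h6 : ‖bx T N y a ⟨x₁, σ⟩ - bx T N y a ⟨x₁, s₁⟩‖ ≤ (9 / 1000) * l * ‖a‖ := by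
      have h7 : bx T N y a ⟨x₁, σ⟩ - bx T N y a ⟨x₁, s₁⟩ = ((bx T N y a ⟨x₁, σ⟩ - bx T N y a ⟨x₁, s₁⟩) - a * ((⟨x₁, σ⟩ : ℂ) - ⟨x₁, s₁⟩)) + a * ((⟨x₁, σ⟩ : ℂ) - ⟨x₁, s₁⟩) := by ring
      rw [h7]
      refine (norm_add_le _ _).trans ?_
      rw [norm_mul, h5]
      rw [h5] at h3
      nlinarith
    have h8 := h2 _ h6
    have h9 : ‖Vf T N (T^[t] (bx T N y a ⟨x₁, s₁⟩))‖ ≤ 2 * n := hVζ
    show ‖T^[t] (bx T N y a ⟨x₁, σ⟩) - T^[t] (bx T N y a ⟨x₁, s₁⟩)‖ ≤ n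
    linarith
  have hσa : ∀ x ∈ Icc (0 : ℝ) 1, ‖P x σ - ζ‖ ≤ (h / 1000 + 1) * n := by
    intro x hx
    have h1 := hE σ hσ hσE ⟨x₁, hx₁, hball _ (by
      refine hσ1.trans ?_
      nlinarith)⟩ x hx x₁ hx₁
    have h2 : P x σ - ζ = (P x σ - P x₁ σ) + (P x₁ σ - ζ) := by ring
    rw [h2]
    refine (norm_add_le _ _).trans ?_
    have h3 : ‖P x σ - P x₁ σ‖ ≤ h / 1000 * n := h1
    linarith
  -- continuity of the verticals
  have hsI : s ∈ Ioo al be := ⟨by linarith [hs.1], by linarith [hs.2]⟩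
  have hvc : ∀ x ∈ Icc (0 : ℝ) 1, ContinuousOn (fun u : ℝ => P x u) (Ioo al be) := by
    intro x hx
    have h1 : ContinuousOn (fun u : ℝ => bx T N y a ⟨x, u⟩) (Ioo al be) := by
      have hL : LipschitzOnWith ⟨201 / 200 * n, by positivity⟩ (fun u : ℝ => bx T N y a ⟨x, u⟩) (Ioo al be) := by
        apply LipschitzOnWith.of_dist_le_mul
        intro u hu v hv
        have h3 := hb2 ⟨x, u⟩ ⟨x, v⟩ ⟨by simp; linarith [hx.1], by simp; linarith [hx.2]⟩ ⟨by simp; linarith [hu.1], by simp; linarith [hu.2]⟩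
          ⟨by simp; linarith [hx.1], by simp; linarith [hx.2]⟩ ⟨by simp; linarith [hv.1], by simp; linarith [hv.2]⟩
        have h4 : ((⟨x, u⟩ : ℂ) - ⟨x, v⟩) = ((u - v : ℝ) : ℂ) * I := by
          apply Complex.ext <;> simp
        have h5 : ‖((⟨x, u⟩ : ℂ) - ⟨x, v⟩)‖ = |u - v| := by
          rw [h4, norm_mul, Complex.norm_I, mul_one, Complex.norm_real, Real.norm_eq_abs]
        rw [dist_eq_norm, Real.dist_eq]
        have h7 : bx T N y a ⟨x, u⟩ - bx T N y a ⟨x, v⟩ = ((bx T N y a ⟨x, u⟩ - bx T N y a ⟨x, v⟩) - a * ((⟨x, u⟩ : ℂ) - ⟨x, v⟩)) + a * ((⟨x, u⟩ : ℂ) - ⟨x, v⟩) := by ring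
        rw [h7]
        refine (norm_add_le _ _).trans ?_
        rw [norm_mul, h5]
        rw [h5] at h3
        show _ ≤ (201 / 200 * n) * |u - v|
        linarith
      exact hL.continuousOn
    exact (RET_cont hPD.hT.continuousOn t).comp h1 fun u hu j hj => hPD.mo 0 (by norm_num) (hAl u hu j hj x hx)
  have hφc : ∀ x ∈ Icc (0 : ℝ) 1, ContinuousOn (fun u : ℝ => ‖P x u - ζ‖) (Ioo al be) := fun x hx => ((hvc x hx).sub continuousOn_const).norm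
  have hAl0 : ∀ s ∈ Ioo al be, Al T (D 0) (bx T N y a) t s := fun s hs i hi x hx => hPD.mo 0 (by norm_num) (hAl s hs i hi x hx)
  -- the claim
  have hcl : ∃ x ∈ Ioo (0 : ℝ) 1, ‖P x s - ζ‖ ≤ h / 40 * n := by
    by_contra hcon
    push Not at hcon
    have hmv : ∀ x ∈ Icc (0 : ℝ) 1, ∀ w : ℝ, h / 40 * n ≤ ‖P x w - ζ‖ → h / 50 * n ≤ ‖P x w - P x σ‖ := by
      intro x hx w hw
      have h1 := hσa x hx
      have h2 : ‖P x w - ζ‖ ≤ ‖P x w - P x σ‖ + ‖P x σ - ζ‖ := by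
        have := norm_add_le (P x w - P x σ) (P x σ - ζ)
        simpa using this
      nlinarith
    rcases lt_trichotomy σ s with hlt | heq | hgt
    · have hv := hVER T N kap A D y a h e hPD hPl he0 hhe al be t (by linarith) (by linarith) hAl0 σ hσ s hsI hlt (by
        intro x hx
        have hxI : x ∈ Icc (0 : ℝ) 1 := ⟨hx.1.le, hx.2.le⟩
        have hsub : Icc σ s ⊆ Ioo al be := fun u hu => ⟨hσ.1.trans_le hu.1, hu.2.trans_lt hsI.2⟩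
        obtain ⟨w, hw, hw1, hw2⟩ := RET_first hlt.le ((hφc x hxI).mono hsub) (hcon x hx).le
        refine ⟨σ, w, le_rfl, hw.1, hw.2, fun u hu => hball _ (hw2 u ⟨hu.1.le, hu.2⟩).le, hmv x hxI w hw1⟩)
      have h1 := hσ.1
      have h2 := hsI.2
      linarith
    · obtain ⟨x', hx'⟩ : ∃ x' : ℝ, x' ∈ Ioo (0 : ℝ) 1 := ⟨1 / 2, by norm_num, by norm_num⟩
      have h1 := hcon x' hx'
      rw [← heq] at h1
      have h2 := hσa x' ⟨hx'.1.le, hx'.2.le⟩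
      nlinarith
    · have hv := hVER T N kap A D y a h e hPD hPl he0 hhe al be t (by linarith) (by linarith) hAl0 s hsI σ hσ hgt (by
        intro x hx
        have hxI : x ∈ Icc (0 : ℝ) 1 := ⟨hx.1.le, hx.2.le⟩
        have hsub : Icc s σ ⊆ Ioo al be := fun u hu => ⟨hsI.1.trans_le hu.1, hu.2.trans_lt hσ.2⟩
        obtain ⟨w, hw, hw1, hw2⟩ := RET_last hgt.le ((hφc x hxI).mono hsub) (hcon x hx).le
        refine ⟨w, σ, hw.1, hw.2, le_rfl, fun u hu => hball _ (hw2 u ⟨hu.1, hu.2.le⟩).le, ?_⟩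
        rw [norm_sub_rev]
        exact hmv x hxI w hw1)
      have h1 := hσ.2
      have h2 := hsI.1
      linarith
  obtain ⟨x', hx', hcx⟩ := hcl
  have hc := hCHN T N kap A D y a h e hPD hPl he0 he1 (by linarith) al be t hal hbe hAl s hsI (by linarith [hs.1]) (by linarith [hs.2]) x' ⟨hx'.1.le, hx'.2.le⟩ x hx (hball _ hcx)
  have h1 : P x s - ζ = (P x s - P x' s) + (P x' s - ζ) := by ring
  show ‖P x s - ζ‖ ≤ h / 20 * n
  rw [h1]
  refine (norm_add_le _ _).trans ?_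
  have h2 : ‖P x s - P x' s‖ ≤ 30 * n := hc
  nlinarith

end FGZ
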